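import Pool.Agent.H660.HopfChi.S3
import Pool.Agent.H893R5.HO.Strong
import Pool.Agent.H486R3.HS.Final
import Pool.Agent.H515R2.HS.Pos
import Pool.Agent.H472R3.Topo

/-!
Hopf's question on the sign of the Euler characteristic: the product `S³ × S³` carries a smooth
Riemannian metric of positive sectional curvature, and its Euler characteristic is zero.
-/

open Bundle Manifold ContDiff Set Topology

set_option autoImplicit false

noncomputable section

namespace Pool.Agent.H660.HopfChi

open Pool.Agent.H821R2 Pool.Agent.H893R5.HO Pool.Agent.H289R3.Tri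

/-- The unit sphere of `ℝ⁴`, with its smooth structure of Mathlib. -/
abbrev Sphere3 : Type := Metric.sphere (0 : EuclideanSpace ℝ (Fin 4)) 1

/-- The space `M` has a CW structure with finitely many cells, of which exactly `N n` have
dimension `n`, for every `n`. -/
def HasCellNumbers (M : Type) [TopologicalSpace M] (N : ℕ → ℕ) : Prop :=
  ∃ cw : Topology.CWComplex (univ : Set M), Finite (Σ n, cw.cell n) ∧
    ∀ n, Nat.card (cw.cell n) = N n

/-- The space `M` has Euler characteristic `c`: it has a CW structure with finitely many cells for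
which the alternating sum `∑ (-1)ⁿ (number of n-cells)` is `c`. -/
def EulerCharIs (M : Type) [TopologicalSpace M] (c : ℤ) : Prop :=
  ∃ cw : Topology.CWComplex (univ : Set M), Finite (Σ n, cw.cell n) ∧
    ∑ᶠ n : ℕ, (-1 : ℤ) ^ n * (Nat.card (cw.cell n) : ℤ) = c

section Defs

variable {E : Type} [NormedAddCommGroup E] [NormedSpace ℝ E] {H : Type} [TopologicalSpace H]

/-- The manifold `M`, with model `I`, is closed and connected: it is compact, Hausdorff, connected,
and it has no boundary. -/
structure IsClosedConnected (I : ModelWithCorners ℝ E H) (M : Type) [TopologicalSpace M]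
    [ChartedSpace H M] : Prop where
  boundaryless : I.Boundaryless
  compact : CompactSpace M
  hausdorff : T2Space M
  connected : ConnectedSpace M

/-- The assertion of Hopf for the smooth manifold `M`: if `M` is closed and connected, of even
dimension at least two, and carries a smooth Riemannian metric all of whose sectional curvatures
are positive, then its Euler characteristic is positive. -/
def HopfFor (I : ModelWithCorners ℝ E H) (M : Type) [TopologicalSpace M] [ChartedSpace H M]
    [IsManifold I ∞ M] : Prop :=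
  IsClosedConnected I M → Even (Module.finrank ℝ E) → 2 ≤ Module.finrank ℝ E →
    AdmitsPositiveSectionalCurvature I M → ∀ c : ℤ, EulerCharIs M c → 0 < c

/-- The smooth manifold `M` is closed, simply connected and of dimension `d`, it carries a smooth
Riemannian metric all of whose sectional curvatures are positive, and its Euler characteristic is
zero. -/
structure IsCounterexample (I : ModelWithCorners ℝ E H) (M : Type) [TopologicalSpace M]
    [ChartedSpace H M] [IsManifold I ∞ M] (d : ℕ) : Prop where
  closed : IsClosedConnected I M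
  simplyConnected : SimplyConnectedSpace M
  dimension : Module.finrank ℝ E = d
  positiveCurvature : AdmitsPositiveSectionalCurvature I M
  eulerCharacteristic : EulerCharIs M 0

variable {E' : Type} [NormedAddCommGroup E'] [NormedSpace ℝ E'] {H' : Type} [TopologicalSpace H']

/-- The product `M × M'` of the smooth manifolds `M` and `M'` is, with its product smooth
structure, a counterexample to the assertion of Hopf of dimension `d`, and it has a CW structure
with exactly `k n` cells of dimension `n` for every `n`. -/
def ProductIsCounterexample (I : ModelWithCorners ℝ E H) (M : Type) [TopologicalSpace M]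
    [ChartedSpace H M] [IsManifold I ∞ M] (J : ModelWithCorners ℝ E' H') (M' : Type)
    [TopologicalSpace M'] [ChartedSpace H' M'] [IsManifold J ∞ M'] (d : ℕ) (k : ℕ → ℕ) : Prop :=
  IsCounterexample (I.prod J) (M × M') d ∧ HasCellNumbers (M × M') k

end Defs

/-- The assertion of Hopf: the Euler characteristic of every closed connected smooth Riemannian
manifold of even dimension at least two, all of whose sectional curvatures are positive, is
positive. -/
def HopfAssertion : Prop :=
  ∀ (E : Type) [NormedAddCommGroup E] [NormedSpace ℝ E] [FiniteDimensional ℝ E]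
    (H : Type) [TopologicalSpace H] (I : ModelWithCorners ℝ E H)
    (M : Type) [TopologicalSpace M] [ChartedSpace H M] [IsManifold I ∞ M], HopfFor I M

/-- the cells of the three-sphere -/
def eB : Bool ≃ Σ n, cellS n where
  toFun b := match b with
    | true => ⟨0, ()⟩
    | false => ⟨3, ()⟩
  invFun c := decide (c.1 = 0)
  left_inv := by intro b; cases b <;> rfl
  right_inv := by
    intro c
    rcases cellS_cases c with rfl | rfl <;> rfl

/-- their dimensions -/
def dimB (b : Bool) : ℕ := if b then 0 else 3

theorem dimB_eB (c : Σ n, cellS n) : dimB (eB.symm c) = c.1 := by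
  rcases cellS_cases c with rfl | rfl <;> rfl

theorem card_cells (n : ℕ) : Nat.card ((sphereStr.prod sphereStr).cell n) =
    Nat.card {q : Bool × Bool // dimB q.1 + dimB q.2 = n} := by
  refine Nat.card_congr ?_
  refine (Equiv.sigmaSubtype n).symm.trans ?_
  refine ((cellEquiv sphereStr sphereStr).trans (Equiv.prodCongr eB.symm eB.symm)).subtypeEquiv ?_
  rintro ⟨m, ⟨⟨⟨a, b⟩, h⟩, ⟨i, j⟩⟩⟩
  have h1 : dimB (eB.symm ⟨a, i⟩) = a := dimB_eB ⟨a, i⟩
  have h2 : dimB (eB.symm ⟨b, j⟩) = b := dimB_eB ⟨b, j⟩
  show m = n ↔ dimB (eB.symm ⟨a, i⟩) + dimB (eB.symm ⟨b, j⟩) = n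
  rw [h1, h2]
  simp only at h
  rw [h]

/-- The numbers of cells: one in dimension zero, two in dimension three, one in dimension six. -/
def cellNumbers (n : ℕ) : ℕ := if n = 0 then 1 else if n = 3 then 2 else if n = 6 then 1 else 0

theorem card_cells' (n : ℕ) : Nat.card ((sphereStr.prod sphereStr).cell n) = cellNumbers n := by
  rw [card_cells]
  unfold cellNumbers
  by_cases h0 : n = 0
  · subst h0
    rw [Nat.card_eq_fintype_card]
    rfl
  by_cases h3 : n = 3
  · subst h3
    rw [Nat.card_eq_fintype_card]
    rfl
  by_cases h6 : n = 6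
  · subst h6
    rw [Nat.card_eq_fintype_card]
    rfl
  rw [if_neg h0, if_neg h3, if_neg h6]
  have : IsEmpty {q : Bool × Bool // dimB q.1 + dimB q.2 = n} := by
    refine ⟨?_⟩
    rintro ⟨⟨a, b⟩, h⟩
    cases a <;> cases b <;> simp [dimB] at h <;> omega
  exact Nat.card_of_isEmpty

theorem exists_cw {X : Type} [TopologicalSpace X] [T2Space X] (C : CellStr X) :
    ∃ cw : Topology.CWComplex (univ : Set X), Finite (Σ n, cw.cell n) ∧
      ∀ n, Nat.card (cw.cell n) = Nat.card (C.cell n) := by
  have hfin := C.fin
  have f1 : ∀ n, Finite (C.cell n) := fun n => Finite.of_injective (Sigma.mk n) sigma_mk_injective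
  have f2 : ∀ᶠ n in Filter.atTop, IsEmpty (C.cell n) := by
    have hfs : (Set.range (Sigma.fst : (Σ n, C.cell n) → ℕ)).Finite := Set.finite_range _
    obtain ⟨N, hN⟩ := hfs.bddAbove
    filter_upwards [Filter.eventually_gt_atTop N] with n hn
    refine ⟨fun i => ?_⟩
    have := hN ⟨⟨n, i⟩, rfl⟩
    exact absurd this (not_le.2 hn)
  refine ⟨Topology.CWComplex.mkFinite univ C.cell C.map f2 f1 C.source_eq C.continuousOn
    C.continuousOn_symm ?_ ?_ ?_, hfin, fun n => rfl⟩
  · intro c _ c' _ hne
    exact C.disj c c' hne
  · intro n i x hx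
    obtain ⟨m, hm, j, y, hy, h⟩ := C.bd n i x hx
    simp only [mem_iUnion]
    exact ⟨m, hm, j, y, hy, h⟩
  · rw [eq_univ_iff_forall]
    intro x
    obtain ⟨n, i, y, hy, h⟩ := C.cov x
    simp only [mem_iUnion]
    exact ⟨n, i, y, Metric.ball_subset_closedBall hy, h⟩

theorem hasCellNumbers : HasCellNumbers (Sphere3 × Sphere3) cellNumbers := by
  obtain ⟨cw, h1, h2⟩ := exists_cw (sphereStr.prod sphereStr)
  exact ⟨cw, h1, fun n => (h2 n).trans (card_cells' n)⟩

theorem cellNumbers_sum : ∑ᶠ n : ℕ, (-1 : ℤ) ^ n * (cellNumbers n : ℤ) = 0 := by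
  have h : ∑ᶠ n : ℕ, (-1 : ℤ) ^ n * (cellNumbers n : ℤ) =
      ∑ n ∈ Finset.range 7, (-1 : ℤ) ^ n * (cellNumbers n : ℤ) := by
    apply finsum_eq_sum_of_support_subset
    intro n hn
    rw [Function.mem_support] at hn
    rw [Finset.coe_range, Set.mem_Iio]
    by_contra hcon
    apply hn
    have : cellNumbers n = 0 := by
      unfold cellNumbers
      rw [if_neg (by omega), if_neg (by omega), if_neg (by omega)]
    rw [this]
    simp
  rw [h]
  rfl

theorem eulerCharIs_zero : EulerCharIs (Sphere3 × Sphere3) 0 := by
  obtain ⟨cw, h1, h2⟩ := hasCellNumbers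
  refine ⟨cw, h1, ?_⟩
  rw [← cellNumbers_sum]
  exact finsum_congr fun n => by rw [h2 n]

theorem admits : AdmitsPositiveSectionalCurvature ((𝓡 3).prod (𝓡 3)) (Sphere3 × Sphere3) := by
  obtain ⟨g, cov, R, h1, h2, h3⟩ := H515HS.posS33
  exact ⟨g, HasPositiveSectionalCurvature.of_exists h1 h2 h3⟩

theorem closed33 : IsClosedConnected ((𝓡 3).prod (𝓡 3)) (Sphere3 × Sphere3) :=
  ⟨inferInstance, inferInstance, inferInstance, H486HS.s33_connected⟩

theorem dim33 : Module.finrank ℝ (EuclideanSpace ℝ (Fin 3) × EuclideanSpace ℝ (Fin 3)) = 6 := by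
  rw [Module.finrank_prod]
  simp

theorem simplyConnected33 : SimplyConnectedSpace (Sphere3 × Sphere3) := by
  have h1 : SimplyConnectedSpace Sphere3 := Pool.Agent.H472R3.simplyConnected_sph 3 (by norm_num)
  exact Pool.Agent.H472R3.simplyConnected_prod _ _

theorem isCounterexample : IsCounterexample ((𝓡 3).prod (𝓡 3)) (Sphere3 × Sphere3) 6 :=
  ⟨closed33, simplyConnected33, dim33, admits, eulerCharIs_zero⟩

theorem productIsCounterexample :
    ProductIsCounterexample (𝓡 3) Sphere3 (𝓡 3) Sphere3 6 cellNumbers :=
  ⟨isCounterexample, hasCellNumbers⟩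

theorem not_hopfAssertion : ¬ HopfAssertion := by
  intro h
  have := h (EuclideanSpace ℝ (Fin 3) × EuclideanSpace ℝ (Fin 3))
    (ModelProd (EuclideanSpace ℝ (Fin 3)) (EuclideanSpace ℝ (Fin 3))) ((𝓡 3).prod (𝓡 3))
    (Sphere3 × Sphere3) closed33 (by rw [dim33]; decide) (by rw [dim33]; norm_num) admits 0
    eulerCharIs_zero
  exact lt_irrefl _ this

end Pool.Agent.H660.HopfChi
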