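import Pool.Agent.H289R3.Tri.CW

/-!
A finite CW structure of the three-sphere with one cell in dimension 0 and one in dimension 3, and
the resulting structure of `S³ × S³` with cells in the dimensions 0, 3, 3, 6.
-/

set_option autoImplicit false
set_option linter.unusedSectionVars false
set_option linter.unusedVariables false
open Set Filter Topology Metric

namespace Pool.Agent.H660.HopfChi

open Pool.Agent.H289R3.Tri

/-- denominator -/
noncomputable def dn (x : Fin 3 → ℝ) : ℝ := x 0 ^ 2 + x 1 ^ 2 + x 2 ^ 2 + (1 - ‖x‖) ^ 2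

theorem dn_pos (x : Fin 3 → ℝ) : 0 < dn x := by
  by_cases h : x = 0
  · rw [h]; simp [dn]
  · have : 0 < x 0 ^ 2 + x 1 ^ 2 + x 2 ^ 2 := by
      by_contra hcon
      push Not at hcon
      have h0 : x 0 = 0 := by nlinarith [sq_nonneg (x 0), sq_nonneg (x 1), sq_nonneg (x 2)]
      have h1 : x 1 = 0 := by nlinarith [sq_nonneg (x 0), sq_nonneg (x 1), sq_nonneg (x 2)]
      have h2 : x 2 = 0 := by nlinarith [sq_nonneg (x 0), sq_nonneg (x 1), sq_nonneg (x 2)]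
      apply h
      funext i
      fin_cases i
      · exact h0
      · exact h1
      · exact h2
    unfold dn
    positivity

theorem vec_mem_sphere {a b c d : ℝ} (h : a ^ 2 + b ^ 2 + c ^ 2 + d ^ 2 = 1) :
    (!₂[a, b, c, d] : EuclideanSpace ℝ (Fin 4)) ∈ sphere (0 : EuclideanSpace ℝ (Fin 4)) 1 := by
  rw [mem_sphere_zero_iff_norm, EuclideanSpace.norm_eq]
  simp [Fin.sum_univ_four, h]

theorem sphere_eq (p : sphere (0 : EuclideanSpace ℝ (Fin 4)) 1) :
    p.1 0 ^ 2 + p.1 1 ^ 2 + p.1 2 ^ 2 + p.1 3 ^ 2 = 1 := by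
  have h := mem_sphere_zero_iff_norm.1 p.2
  rw [EuclideanSpace.norm_eq, Real.sqrt_eq_one] at h
  simpa [Fin.sum_univ_four] using h

theorem sq_sum (x : Fin 3 → ℝ) : (2 * (1 - ‖x‖) * x 0 / dn x) ^ 2 +
    (2 * (1 - ‖x‖) * x 1 / dn x) ^ 2 + (2 * (1 - ‖x‖) * x 2 / dn x) ^ 2 +
    ((x 0 ^ 2 + x 1 ^ 2 + x 2 ^ 2 - (1 - ‖x‖) ^ 2) / dn x) ^ 2 = 1 := by
  have h := dn_pos x
  have e : dn x = x 0 ^ 2 + x 1 ^ 2 + x 2 ^ 2 + (1 - ‖x‖) ^ 2 := rfl
  rw [div_pow, div_pow, div_pow, div_pow, ← add_div, ← add_div, ← add_div,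
    div_eq_one_iff_eq (by positivity), e]
  ring

/-- cube onto sphere -/
noncomputable def sqF (x : Fin 3 → ℝ) : sphere (0 : EuclideanSpace ℝ (Fin 4)) 1 :=
  ⟨!₂[2 * (1 - ‖x‖) * x 0 / dn x, 2 * (1 - ‖x‖) * x 1 / dn x, 2 * (1 - ‖x‖) * x 2 / dn x,
    (x 0 ^ 2 + x 1 ^ 2 + x 2 ^ 2 - (1 - ‖x‖) ^ 2) / dn x], vec_mem_sphere (sq_sum x)⟩

theorem sqF_cont : Continuous sqF := by
  have h : ∀ x, dn x ≠ 0 := fun x => (dn_pos x).ne'
  have hd : Continuous dn := by unfold dn; fun_prop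
  have h1 : Continuous (fun x : Fin 3 → ℝ => 2 * (1 - ‖x‖) * x 0 / dn x) := by
    apply Continuous.div _ hd h; fun_prop
  have h2 : Continuous (fun x : Fin 3 → ℝ => 2 * (1 - ‖x‖) * x 1 / dn x) := by
    apply Continuous.div _ hd h; fun_prop
  have h2' : Continuous (fun x : Fin 3 → ℝ => 2 * (1 - ‖x‖) * x 2 / dn x) := by
    apply Continuous.div _ hd h; fun_prop
  have h3 : Continuous (fun x : Fin 3 → ℝ =>
      (x 0 ^ 2 + x 1 ^ 2 + x 2 ^ 2 - (1 - ‖x‖) ^ 2) / dn x) := by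
    apply Continuous.div _ hd h; fun_prop
  apply Continuous.subtype_mk
  fun_prop

/-- affine coordinates -/
noncomputable def aff (p : sphere (0 : EuclideanSpace ℝ (Fin 4)) 1) : Fin 3 → ℝ :=
  ![p.1 0 / (1 - p.1 3), p.1 1 / (1 - p.1 3), p.1 2 / (1 - p.1 3)]

theorem aff_sqF {x : Fin 3 → ℝ} (hx : ‖x‖ < 1) : aff (sqF x) = (1 - ‖x‖)⁻¹ • x := by
  have hd := dn_pos x
  have hw : (1 - ‖x‖) ≠ 0 := by linarith
  have e2 : 1 - (x 0 ^ 2 + x 1 ^ 2 + x 2 ^ 2 - (1 - ‖x‖) ^ 2) / dn x =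
      2 * (1 - ‖x‖) ^ 2 / dn x := by
    rw [eq_div_iff hd.ne', sub_mul, div_mul_cancel₀ _ hd.ne']
    unfold dn; ring
  funext i
  fin_cases i
  · show (2 * (1 - ‖x‖) * x 0 / dn x) /
        (1 - (x 0 ^ 2 + x 1 ^ 2 + x 2 ^ 2 - (1 - ‖x‖) ^ 2) / dn x) = (1 - ‖x‖)⁻¹ * x 0
    rw [e2]; field_simp
  · show (2 * (1 - ‖x‖) * x 1 / dn x) /
        (1 - (x 0 ^ 2 + x 1 ^ 2 + x 2 ^ 2 - (1 - ‖x‖) ^ 2) / dn x) = (1 - ‖x‖)⁻¹ * x 1
    rw [e2]; field_simp
  · show (2 * (1 - ‖x‖) * x 2 / dn x) /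
        (1 - (x 0 ^ 2 + x 1 ^ 2 + x 2 ^ 2 - (1 - ‖x‖) ^ 2) / dn x) = (1 - ‖x‖)⁻¹ * x 2
    rw [e2]; field_simp

/-- inverse of the collapse -/
noncomputable def sqG (p : sphere (0 : EuclideanSpace ℝ (Fin 4)) 1) : Fin 3 → ℝ :=
  (1 + ‖aff p‖)⁻¹ • aff p

theorem sqG_norm (p : sphere (0 : EuclideanSpace ℝ (Fin 4)) 1) :
    ‖sqG p‖ = ‖aff p‖ / (1 + ‖aff p‖) := by
  have : 0 < 1 + ‖aff p‖ := by positivity
  rw [sqG, norm_smul, norm_inv, Real.norm_eq_abs, abs_of_pos this, inv_mul_eq_div]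

theorem sqG_sqF {x : Fin 3 → ℝ} (hx : ‖x‖ < 1) : sqG (sqF x) = x := by
  have hw : 0 < (1 - ‖x‖) := by linarith
  rw [sqG, aff_sqF hx, norm_smul, norm_inv, Real.norm_eq_abs, abs_of_pos hw, smul_smul]
  have : (1 + (1 - ‖x‖)⁻¹ * ‖x‖)⁻¹ * (1 - ‖x‖)⁻¹ = 1 := by
    field_simp
    ring
  rw [this, one_smul]

theorem sqF_sqG {p : sphere (0 : EuclideanSpace ℝ (Fin 4)) 1} (hp : p.1 3 ≠ 1) :
    sqF (sqG p) = p := by
  have hs := sphere_eq p
  have h1 : 1 - p.1 3 ≠ 0 := fun h => hp (by linarith)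
  have hN : 0 < 1 + ‖aff p‖ := by positivity
  have hn := sqG_norm p
  have hw : 1 - ‖sqG p‖ = (1 + ‖aff p‖)⁻¹ := by
    rw [hn]; field_simp; ring
  have g0 : sqG p 0 = (1 + ‖aff p‖)⁻¹ * (p.1 0 / (1 - p.1 3)) := rfl
  have g1 : sqG p 1 = (1 + ‖aff p‖)⁻¹ * (p.1 1 / (1 - p.1 3)) := rfl
  have g2 : sqG p 2 = (1 + ‖aff p‖)⁻¹ * (p.1 2 / (1 - p.1 3)) := rfl
  have hsq : (p.1 0 / (1 - p.1 3)) ^ 2 + (p.1 1 / (1 - p.1 3)) ^ 2 +
      (p.1 2 / (1 - p.1 3)) ^ 2 + 1 = 2 / (1 - p.1 3) := by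
    rw [div_pow, div_pow, div_pow, ← add_div, ← add_div, div_add_one (pow_ne_zero 2 h1),
      div_eq_div_iff (pow_ne_zero 2 h1) h1]
    have : p.1 0 ^ 2 + p.1 1 ^ 2 + p.1 2 ^ 2 = 1 - p.1 3 ^ 2 := by linarith
    rw [this]; ring
  have hsq' : (p.1 0 / (1 - p.1 3)) ^ 2 + (p.1 1 / (1 - p.1 3)) ^ 2 +
      (p.1 2 / (1 - p.1 3)) ^ 2 - 1 = 2 * p.1 3 / (1 - p.1 3) := by
    have : 2 * p.1 3 / (1 - p.1 3) = 2 / (1 - p.1 3) - 2 := by field_simp; ring
    rw [this, ← hsq]; ring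
  have hd : dn (sqG p) = (1 + ‖aff p‖)⁻¹ ^ 2 * (2 / (1 - p.1 3)) := by
    unfold dn
    rw [hw, g0, g1, g2, ← hsq]; ring
  have hN' : (1 + ‖aff p‖)⁻¹ ≠ 0 := inv_ne_zero hN.ne'
  apply Subtype.ext
  ext i
  fin_cases i
  · show 2 * (1 - ‖sqG p‖) * sqG p 0 / dn (sqG p) = p.1 0
    rw [hw, g0, hd]
    field_simp
  · show 2 * (1 - ‖sqG p‖) * sqG p 1 / dn (sqG p) = p.1 1
    rw [hw, g1, hd]
    field_simp
  · show 2 * (1 - ‖sqG p‖) * sqG p 2 / dn (sqG p) = p.1 2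
    rw [hw, g2, hd]
    field_simp
  · show (sqG p 0 ^ 2 + sqG p 1 ^ 2 + sqG p 2 ^ 2 - (1 - ‖sqG p‖) ^ 2) / dn (sqG p) = p.1 3
    have e : sqG p 0 ^ 2 + sqG p 1 ^ 2 + sqG p 2 ^ 2 - (1 - ‖sqG p‖) ^ 2 =
        (1 + ‖aff p‖)⁻¹ ^ 2 * (2 * p.1 3 / (1 - p.1 3)) := by
      rw [hw, g0, g1, g2, ← hsq']; ring
    rw [e, hd, mul_div_mul_left _ _ (pow_ne_zero 2 hN')]
    field_simp

/-- the three-cell of the sphere -/
noncomputable def sqMap : PartialEquiv (Fin 3 → ℝ) (sphere (0 : EuclideanSpace ℝ (Fin 4)) 1) where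
  toFun := sqF
  invFun := sqG
  source := ball 0 1
  target := {p | p.1 3 ≠ 1}
  map_source' x hx := by
    rw [mem_ball_zero_iff] at hx
    have hd := dn_pos x
    have hw : 0 < (1 - ‖x‖) := by linarith
    show (x 0 ^ 2 + x 1 ^ 2 + x 2 ^ 2 - (1 - ‖x‖) ^ 2) / dn x ≠ 1
    rw [ne_eq, div_eq_one_iff_eq hd.ne']
    unfold dn
    intro h
    nlinarith [pow_pos hw 2]
  map_target' p hp := by
    rw [mem_ball_zero_iff, sqG_norm, div_lt_one (by positivity)]
    linarith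
  left_inv' x hx := sqG_sqF (mem_ball_zero_iff.1 hx)
  right_inv' p hp := sqF_sqG hp

/-- cells of the sphere -/
def cellS : ℕ → Type
  | 0 => Unit
  | 3 => Unit
  | _ => Empty

/-- the north pole -/
noncomputable def npole : sphere (0 : EuclideanSpace ℝ (Fin 4)) 1 :=
  ⟨!₂[0, 0, 0, 1], vec_mem_sphere (by norm_num)⟩

/-- characteristic maps -/
noncomputable def mapS : ∀ n, cellS n →
    PartialEquiv (Fin n → ℝ) (sphere (0 : EuclideanSpace ℝ (Fin 4)) 1)
  | 0, _ => ptMap npole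
  | 1, e => e.elim
  | 2, e => e.elim
  | 3, _ => sqMap
  | (_ + 4), e => e.elim

theorem cellS_cases (c : Σ n, cellS n) : c = ⟨0, ()⟩ ∨ c = ⟨3, ()⟩ := by
  rcases c with ⟨_ | _ | _ | _ | n, i⟩
  · exact Or.inl rfl
  · exact i.elim
  · exact i.elim
  · exact Or.inr rfl
  · exact i.elim

theorem eq_npole {p : sphere (0 : EuclideanSpace ℝ (Fin 4)) 1} (hp : p.1 3 = 1) : p = npole := by
  have hs := sphere_eq p
  rw [hp] at hs
  have h0 : p.1 0 = 0 := by
    nlinarith [sq_nonneg (p.1 0), sq_nonneg (p.1 1), sq_nonneg (p.1 2)]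
  have h1 : p.1 1 = 0 := by
    nlinarith [sq_nonneg (p.1 0), sq_nonneg (p.1 1), sq_nonneg (p.1 2)]
  have h2 : p.1 2 = 0 := by
    nlinarith [sq_nonneg (p.1 0), sq_nonneg (p.1 1), sq_nonneg (p.1 2)]
  apply Subtype.ext
  ext i
  fin_cases i
  · exact h0
  · exact h1
  · exact h2
  · exact hp

theorem aff_cont : ContinuousOn aff {p | p.1 3 ≠ 1} := by
  apply continuousOn_pi.2
  intro i
  have hc : ∀ j, Continuous (fun p : sphere (0 : EuclideanSpace ℝ (Fin 4)) 1 => p.1 j) := by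
    intro j; fun_prop
  have hne : ∀ p ∈ {p : sphere (0 : EuclideanSpace ℝ (Fin 4)) 1 | p.1 3 ≠ 1}, 1 - p.1 3 ≠ 0 := by
    intro p hp h
    exact hp (by linarith)
  fin_cases i
  · exact (hc 0).continuousOn.div (continuousOn_const.sub (hc 3).continuousOn) hne
  · exact (hc 1).continuousOn.div (continuousOn_const.sub (hc 3).continuousOn) hne
  · exact (hc 2).continuousOn.div (continuousOn_const.sub (hc 3).continuousOn) hne

/-- cell structure of the three-sphere -/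
noncomputable def sphereStr : CellStr (sphere (0 : EuclideanSpace ℝ (Fin 4)) 1) where
  cell := cellS
  map := mapS
  fin := by
    have : Function.Surjective (fun b : Bool => if b then (⟨0, ()⟩ : Σ n, cellS n) else ⟨3, ()⟩) := by
      intro c
      rcases cellS_cases c with rfl | rfl
      · exact ⟨true, rfl⟩
      · exact ⟨false, rfl⟩
    exact Finite.of_surjective _ this
  source_eq := by
    rintro (_ | _ | _ | _ | n) i
    · rfl
    · exact i.elim
    · exact i.elim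
    · rfl
    · exact i.elim
  continuousOn := by
    rintro (_ | _ | _ | _ | n) i
    · exact continuousOn_const
    · exact i.elim
    · exact i.elim
    · exact sqF_cont.continuousOn
    · exact i.elim
  continuousOn_symm := by
    rintro (_ | _ | _ | _ | n) i
    · exact continuousOn_const
    · exact i.elim
    · exact i.elim
    · show ContinuousOn sqG {p | p.1 3 ≠ 1}
      have h1 : ContinuousOn (fun p => (1 + ‖aff p‖)⁻¹)
          {p : sphere (0 : EuclideanSpace ℝ (Fin 4)) 1 | p.1 3 ≠ 1} := by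
        apply ContinuousOn.inv₀ (continuousOn_const.add aff_cont.norm)
        intro p _
        have : 0 < 1 + ‖aff p‖ := by positivity
        exact this.ne'
      exact h1.smul aff_cont
    · exact i.elim
  disj := by
    have key : Disjoint (mapS 0 () '' ball 0 1) (mapS 3 () '' ball 0 1) := by
      rw [Set.disjoint_left]
      rintro _ ⟨x, hx, rfl⟩ ⟨y, hy, h⟩
      have h1 : (mapS 3 () y).1 3 ≠ 1 := sqMap.map_source hy
      rw [h] at h1
      exact h1 rfl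
    intro c c' hne
    rcases cellS_cases c with rfl | rfl <;> rcases cellS_cases c' with rfl | rfl
    · exact (hne rfl).elim
    · exact key
    · exact key.symm
    · exact (hne rfl).elim
  bd := by
    rintro (_ | _ | _ | _ | n) i x hx
    · rw [mem_sphere_zero_iff_norm] at hx
      have : x = 0 := Subsingleton.elim _ _
      rw [this, norm_zero] at hx
      norm_num at hx
    · exact i.elim
    · exact i.elim
    · refine ⟨0, three_pos, (), 0, by simp, ?_⟩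
      show npole = sqF x
      have h1 : ‖x‖ = 1 := mem_sphere_zero_iff_norm.1 hx
      have hd := dn_pos x
      refine (eq_npole ?_).symm
      show (x 0 ^ 2 + x 1 ^ 2 + x 2 ^ 2 - (1 - ‖x‖) ^ 2) / dn x = 1
      rw [div_eq_one_iff_eq hd.ne']
      unfold dn
      rw [h1]; ring
    · exact i.elim
  cov := by
    intro z
    by_cases hz : z.1 3 = 1
    · exact ⟨0, (), 0, by simp, (eq_npole hz).symm⟩
    · exact ⟨3, (), sqMap.symm z, sqMap.map_target hz, sqMap.right_inv hz⟩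

theorem sphereStr_chi : sphereStr.chi = 0 := by
  have e : (univ : Set (Σ n, cellS n)) = {⟨0, ()⟩, ⟨3, ()⟩} := by
    ext c
    simp only [mem_univ, mem_insert_iff, mem_singleton_iff, true_iff]
    exact cellS_cases c
  unfold CellStr.chi
  rw [← finsum_mem_univ]
  show ∑ᶠ (i : Σ n, cellS n) (_ : i ∈ univ), (-1 : ℤ) ^ i.1 = 0
  rw [e, finsum_mem_pair]
  · norm_num
  · intro h
    have := congrArg Sigma.fst h
    simp at this

theorem euler_S33 : HasEulerCharacteristic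
    (sphere (0 : EuclideanSpace ℝ (Fin 4)) 1 × sphere (0 : EuclideanSpace ℝ (Fin 4)) 1) 0 := by
  have h := (sphereStr.prod sphereStr).hasEuler
  rwa [CellStr.chi_prod, sphereStr_chi, mul_zero] at h

/-- The two ways to count cells, over all cells and dimension by dimension, agree. -/
theorem count_cells {cell : ℕ → Type} [Finite (Σ n, cell n)] :
    ∑ᶠ c : Σ n, cell n, (-1 : ℤ) ^ c.1 = ∑ᶠ n : ℕ, (-1 : ℤ) ^ n * (Nat.card (cell n) : ℤ) := by
  classical
  have f1 : ∀ n, Finite (cell n) := fun n => Finite.of_injective (Sigma.mk n) sigma_mk_injective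
  have hfs : (Set.range (Sigma.fst : (Σ n, cell n) → ℕ)).Finite := Set.finite_range _
  obtain ⟨N, hN⟩ := hfs.bddAbove
  have hempty : ∀ n, N < n → Nat.card (cell n) = 0 := by
    intro n hn
    have : IsEmpty (cell n) := ⟨fun i => absurd (hN ⟨⟨n, i⟩, rfl⟩) (not_le.2 hn)⟩
    exact Nat.card_of_isEmpty
  have hR : ∑ᶠ n : ℕ, (-1 : ℤ) ^ n * (Nat.card (cell n) : ℤ) =
      ∑ n ∈ Finset.range (N + 1), (-1 : ℤ) ^ n * (Nat.card (cell n) : ℤ) := by
    apply finsum_eq_sum_of_support_subset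
    intro n hn
    rw [Function.mem_support] at hn
    rw [Finset.coe_range, Set.mem_Iio, Nat.lt_succ_iff]
    by_contra hcon
    apply hn
    rw [hempty n (not_le.1 hcon)]
    simp
  rw [hR]
  have : Fintype (Σ n, cell n) := Fintype.ofFinite _
  rw [finsum_eq_sum_of_fintype]
  rw [← Finset.sum_fiberwise_of_maps_to (s := Finset.univ) (t := Finset.range (N + 1))
    (g := fun c : Σ n, cell n => c.1)]
  · apply Finset.sum_congr rfl
    intro n _
    have h1 : ∑ c ∈ Finset.univ.filter (fun c : Σ n, cell n => c.1 = n), (-1 : ℤ) ^ c.1 =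
        ∑ c ∈ Finset.univ.filter (fun c : Σ n, cell n => c.1 = n), (-1 : ℤ) ^ n := by
      apply Finset.sum_congr rfl
      intro c hc
      rw [(Finset.mem_filter.1 hc).2]
    rw [h1, Finset.sum_const, nsmul_eq_mul, mul_comm]
    congr 2
    rw [← Fintype.card_subtype, ← Nat.card_eq_fintype_card]
    exact Nat.card_congr (Equiv.sigmaSubtype n)
  · intro c _
    rw [Finset.mem_range, Nat.lt_succ_iff]
    exact hN ⟨c, rfl⟩

end Pool.Agent.H660.HopfChi
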